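import Pool.Agent.H357R2.SI.PairFinal
import Pool.Agent.H357R2.SI.Common

/-! Few primes have another prime very close; isolating the second summand in Goldbach's problem. -/

set_option autoImplicit false

namespace Pool.Agent.Y843.LS

open Finset Filter Topology
open Pool.Agent.H357R2.SI

open Classical in
/-- the primes `q ≤ x` with another prime at distance at most `T` -/
noncomputable def close (T x : ℕ) : Finset ℕ :=
  (Icc 1 x).filter (fun q => q.Prime ∧ ∃ r : ℕ, r.Prime ∧ r ≠ q ∧ q ≤ r + T ∧ r ≤ q + T)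

theorem close_le : ∃ C : ℝ, 1 ≤ C ∧ ∃ x₀ : ℕ, ∀ x T : ℕ, x₀ ≤ x →
    ((close T x).card : ℝ) ≤ C * x * T / Real.log x ^ 2 := by
  classical
  obtain ⟨C1, hC1, u0, hps⟩ := pair_sieve
  obtain ⟨C2, hC2, hsg⟩ := sum_sg_sq
  refine ⟨2 * (C1 * C2), by nlinarith, max u0 3, ?_⟩
  intro x T hx
  have hxu : u0 ≤ x := (le_max_left _ _).trans hx
  have hx3 : 3 ≤ x := (le_max_right _ _).trans hx
  have hx3r : (3 : ℝ) ≤ x := by exact_mod_cast hx3
  have hL : 0 < Real.log x := Real.log_pos (by linarith)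
  set A : ℕ → Finset ℕ := fun h => (Ioc 0 (0 + x)).filter (fun n => n.Prime ∧ (n + h).Prime) with hA
  have hsub : close T x ⊆ (Icc 1 T).biUnion (fun h => A h ∪ (A h).image (fun n => n + h)) := by
    intro q hq
    unfold close at hq
    rw [mem_filter, mem_Icc] at hq
    obtain ⟨⟨hq1, hq2⟩, hqp, r, hrp, hrq, h1, h2⟩ := hq
    rw [mem_biUnion]
    rcases lt_or_gt_of_ne hrq with hlt | hgt
    · refine ⟨q - r, mem_Icc.2 ⟨by omega, by omega⟩, ?_⟩
      rw [mem_union]
      right
      rw [mem_image]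
      have e : r + (q - r) = q := by omega
      refine ⟨r, ?_, e⟩
      rw [hA]
      simp only
      rw [mem_filter, mem_Ioc, e]
      exact ⟨⟨hrp.pos, by omega⟩, hrp, hqp⟩
    · refine ⟨r - q, mem_Icc.2 ⟨by omega, by omega⟩, ?_⟩
      rw [mem_union]
      left
      have e : q + (r - q) = r := by omega
      rw [hA]
      simp only
      rw [mem_filter, mem_Ioc, e]
      exact ⟨⟨by omega, by omega⟩, hqp, hrp⟩
  have h1 : (close T x).card ≤ ∑ h ∈ Icc 1 T, 2 * (A h).card := by
    refine (card_le_card hsub).trans (card_biUnion_le.trans (sum_le_sum fun h _ => ?_))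
    refine (card_union_le _ _).trans ?_
    have := card_image_le (s := A h) (f := fun n => n + h)
    omega
  have h2 : ((close T x).card : ℝ) ≤ ∑ h ∈ Icc 1 T, 2 * ((A h).card : ℝ) := by exact_mod_cast h1
  have h3 : ∀ h ∈ Icc 1 T, 2 * ((A h).card : ℝ) ≤ 2 * C1 * x / Real.log x ^ 2 * sg h ^ 2 := by
    intro h hh
    rw [mem_Icc] at hh
    have h4 := hps h 0 x (by omega) hxu
    calc 2 * ((A h).card : ℝ) ≤ 2 * (C1 * sg h ^ 2 * x / Real.log x ^ 2) :=
          mul_le_mul_of_nonneg_left h4 (by norm_num)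
      _ = _ := by ring
  have h4 := h2.trans (sum_le_sum h3)
  rw [← mul_sum] at h4
  have h5 : 0 ≤ 2 * C1 * x / Real.log x ^ 2 := by positivity
  have h6 := mul_le_mul_of_nonneg_left (hsg T) h5
  calc ((close T x).card : ℝ) ≤ 2 * C1 * x / Real.log x ^ 2 * (C2 * T) := h4.trans h6
    _ = _ := by ring

/-- `p` is at distance more than `R` from every other prime -/
def Isolated (R : ℝ) (p : ℕ) : Prop := ∀ q : ℕ, q.Prime → q ≠ p → R < |(q : ℝ) - p|

open Classical in
/-- the primes `p < N` with `N - p` prime and the property `P p N` -/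
noncomputable def S (P : ℕ → ℕ → Prop) (N : ℕ) : Finset ℕ :=
  (range N).filter (fun p => p.Prime ∧ (N - p).Prime ∧ P p N)

lemma mem_S (P : ℕ → ℕ → Prop) (N p : ℕ) :
    p ∈ S P N ↔ p < N ∧ p.Prime ∧ (N - p).Prime ∧ P p N := by
  classical
  unfold S
  rw [mem_filter, mem_range]

/-- the order of magnitude -/
noncomputable def F (N : ℕ) : ℝ := (N : ℝ) ^ 2 / (Nat.totient N * Real.log N ^ 2)

open Classical in
/-- the even `N ≤ x` with few representations -/
noncomputable def Ex (P : ℕ → ℕ → Prop) (c : ℝ) (x : ℕ) : Finset ℕ :=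
  (Icc 1 x).filter (fun N => Even N ∧ ((S P N).card : ℝ) < c * F N)

lemma F_low (N : ℕ) (hN : 3 ≤ N) : (N : ℝ) / Real.log N ^ 2 ≤ F N := by
  unfold F
  have hN3 : (3 : ℝ) ≤ N := by exact_mod_cast hN
  have hL : 0 < Real.log N := Real.log_pos (by linarith)
  have hφ : (0 : ℝ) < Nat.totient N := by exact_mod_cast Nat.totient_pos.2 (by omega)
  have hφ2 : (Nat.totient N : ℝ) ≤ N := by exact_mod_cast Nat.totient_le N
  rw [div_le_div_iff₀ (by positivity) (by positivity)]
  have h0 : 0 ≤ (N : ℝ) * Real.log N ^ 2 := by positivity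
  nlinarith [mul_le_mul_of_nonneg_left hφ2 h0]

theorem isolate (P : ℕ → ℕ → Prop) (c κ : ℝ) (hc : 0 < c) (hκ : 0 < κ)
    (h : ∀ᶠ x : ℕ in atTop, ((Ex P c x).card : ℝ) ≤ κ * x) :
    ∃ μ : ℝ, 0 < μ ∧ ∀ᶠ x : ℕ in atTop,
      ((Ex (fun p N => P p N ∧ Isolated (μ * Real.log N) (N - p)) (c / 2) x).card : ℝ) ≤
        2 * κ * x := by
  classical
  obtain ⟨C, hC, x1, hclose⟩ := close_le
  obtain ⟨x2, hx2, hpnt⟩ := pnt 1 one_pos
  have hC0 : 0 < C := by linarith
  obtain ⟨μ, hμ⟩ : ∃ μ : ℝ, μ = c * κ ^ 2 / (16 * C) := ⟨_, rfl⟩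
  have hμ0 : 0 < μ := by rw [hμ]; positivity
  refine ⟨μ, hμ0, ?_⟩
  have hev : ∀ᶠ x : ℕ in atTop, 12 / κ ≤ (x : ℝ) :=
    tendsto_natCast_atTop_atTop.eventually_ge_atTop _
  filter_upwards [h, eventually_ge_atTop (max x1 (max x2 3)), hev] with x hx hx12 hx4
  have hxx1 : x1 ≤ x := by omega
  have hxx2 : x2 ≤ x := by omega
  have hx3 : 3 ≤ x := by omega
  have hx3r : (3 : ℝ) ≤ x := by exact_mod_cast hx3
  have hx0 : (0 : ℝ) < x := by linarith
  obtain ⟨L, hL⟩ : ∃ L, L = Real.log (x : ℝ) := ⟨_, rfl⟩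
  have hL0 : 0 < L := by rw [hL]; exact Real.log_pos (by linarith)
  obtain ⟨T, hT⟩ : ∃ T : ℕ, T = ⌊μ * L⌋₊ := ⟨_, rfl⟩
  have hTL : (T : ℝ) ≤ μ * L := by rw [hT]; exact Nat.floor_le (by positivity)
  have hcl := hclose x T hxx1
  rw [← hL] at hcl
  have hpn := (hpnt x hxx2).2
  rw [← hL] at hpn
  -- the pairs with a second member which is not isolated
  set Q : ℕ → Finset ℕ := fun N => (range N).filter (fun p => p.Prime ∧ N - p ∈ close T x) with hQ
  have hsumQ : (∑ N ∈ Icc 1 x, ((Q N).card : ℝ)) ≤ (Nat.primeCounting x : ℝ) * (close T x).card := by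
    have h1 : ∑ N ∈ Icc 1 x, (Q N).card ≤ (((Icc 1 x).filter Nat.Prime) ×ˢ (close T x)).card := by
      rw [← card_sigma]
      apply card_le_card_of_injOn (fun z : (Σ _ : ℕ, ℕ) => ((z.2, z.1 - z.2) : ℕ × ℕ))
      · rintro ⟨N, p⟩ hz
        rw [mem_coe, mem_sigma, hQ] at hz
        simp only at hz
        rw [mem_Icc, mem_filter, mem_range] at hz
        show (p, N - p) ∈ _
        rw [mem_coe, mem_product, mem_filter, mem_Icc]
        simp only
        exact ⟨⟨⟨hz.2.2.1.pos, by omega⟩, hz.2.2.1⟩, hz.2.2.2⟩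
      · rintro ⟨N, p⟩ hz ⟨N', p'⟩ hz' he
        rw [mem_coe, mem_sigma, hQ] at hz hz'
        simp only at hz hz'
        rw [mem_filter, mem_range] at hz hz'
        simp only [Prod.mk.injEq] at he
        obtain ⟨he1, he2⟩ := he
        subst he1
        have : N = N' := by omega
        subst this
        rfl
    rw [card_product] at h1
    have h2 : ((Icc 1 x).filter Nat.Prime).card ≤ Nat.primeCounting x := by
      rw [Nat.primeCounting, Nat.primeCounting', Nat.count_eq_card_filter_range]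
      apply card_le_card
      intro p hp
      rw [mem_filter, mem_Icc] at hp
      rw [mem_filter, mem_range]
      exact ⟨by omega, hp.2⟩
    have h3 := h1.trans (Nat.mul_le_mul_right _ h2)
    exact_mod_cast h3
  have hsum2 : (∑ N ∈ Icc 1 x, ((Q N).card : ℝ)) ≤ (2 * C * μ) * (x ^ 2 / L ^ 2) := by
    refine hsumQ.trans ?_
    have h1 : (Nat.primeCounting x : ℝ) * (close T x).card ≤
        ((1 + 1) * x / L) * (C * x * (μ * L) / L ^ 2) := by
      apply mul_le_mul _ _ (Nat.cast_nonneg _) (by positivity)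
      · exact hpn
      · refine hcl.trans ?_
        gcongr
    refine h1.trans (le_of_eq ?_)
    field_simp
    ring
  -- the exceptional set is covered
  set y : ℝ := κ * x / 2 with hy
  set E2 : Finset ℕ := (Icc 1 x).filter (fun N => (N : ℝ) < y) with hE2
  set E3 : Finset ℕ := (Icc 1 x).filter (fun N => c / 2 * (y / L ^ 2) ≤ ((Q N).card : ℝ)) with hE3
  have hy0 : 0 < y := by rw [hy]; positivity
  have hy6 : 6 ≤ y := by
    rw [hy]
    rw [div_le_iff₀ hκ] at hx4
    linarith
  have hsub : Ex (fun p N => P p N ∧ Isolated (μ * Real.log N) (N - p)) (c / 2) x ⊆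
      Ex P c x ∪ (E2 ∪ E3) := by
    intro N hN
    unfold Ex at hN
    rw [mem_filter] at hN
    obtain ⟨hN1, hN2, hN3⟩ := hN
    by_contra hcon
    rw [mem_union, mem_union] at hcon
    push Not at hcon
    obtain ⟨k1, k2, k3⟩ := hcon
    have k1' : c * F N ≤ ((S P N).card : ℝ) := by
      by_contra hlt
      push Not at hlt
      apply k1
      unfold Ex
      rw [mem_filter]
      exact ⟨hN1, hN2, hlt⟩
    have k2' : y ≤ (N : ℝ) := by
      by_contra hlt
      push Not at hlt
      exact k2 (by rw [hE2, mem_filter]; exact ⟨hN1, hlt⟩)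
    have k3' : ((Q N).card : ℝ) < c / 2 * (y / L ^ 2) := by
      by_contra hlt
      push Not at hlt
      exact k3 (by rw [hE3, mem_filter]; exact ⟨hN1, hlt⟩)
    have hNx : N ≤ x := (mem_Icc.1 hN1).2
    have hN6 : (6 : ℝ) ≤ N := hy6.trans k2'
    have hN3' : 3 ≤ N := by
      have : (3 : ℝ) ≤ N := by linarith
      exact_mod_cast this
    have hLN : Real.log N ≤ L := by
      rw [hL]
      exact Real.log_le_log (by linarith) (by exact_mod_cast hNx)
    have hLN0 : 0 < Real.log N := Real.log_pos (by linarith)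
    have hF1 : y / L ^ 2 ≤ F N := by
      refine le_trans ?_ (F_low N hN3')
      apply div_le_div₀ (by linarith) k2' (by positivity)
      exact pow_le_pow_left₀ hLN0.le hLN 2
    have hcov : S P N ⊆ S (fun p N => P p N ∧ Isolated (μ * Real.log N) (N - p)) N ∪ Q N := by
      intro p hp
      rw [mem_S] at hp
      obtain ⟨hp1, hp2, hp3, hp4⟩ := hp
      rw [mem_union]
      by_cases hI : Isolated (μ * Real.log N) (N - p)
      · left
        rw [mem_S]
        exact ⟨hp1, hp2, hp3, hp4, hI⟩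
      · right
        rw [hQ]
        simp only
        rw [mem_filter, mem_range]
        refine ⟨hp1, hp2, ?_⟩
        unfold close
        rw [mem_filter, mem_Icc]
        unfold Isolated at hI
        push Not at hI
        obtain ⟨r, hr1, hr2, hr3⟩ := hI
        have hr4 : |(r : ℝ) - ((N - p : ℕ) : ℝ)| ≤ μ * L :=
          hr3.trans (mul_le_mul_of_nonneg_left hLN hμ0.le)
        rw [abs_le] at hr4
        refine ⟨⟨hp3.pos, by omega⟩, hp3, r, hr1, hr2, ?_, ?_⟩
        · rcases le_or_gt (N - p) r with h5 | h5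
          · omega
          · have h6 : (((N - p) - r : ℕ) : ℝ) ≤ μ * L := by
              rw [Nat.cast_sub h5.le]
              linarith [hr4.1]
            have h7 : (N - p) - r ≤ T := by
              rw [hT]
              exact Nat.le_floor h6
            omega
        · rcases le_or_gt r (N - p) with h5 | h5
          · omega
          · have h6 : ((r - (N - p) : ℕ) : ℝ) ≤ μ * L := by
              rw [Nat.cast_sub h5.le]
              linarith [hr4.2]
            have h7 : r - (N - p) ≤ T := by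
              rw [hT]
              exact Nat.le_floor h6
            omega
    have h8 : ((S P N).card : ℝ) ≤
        ((S (fun p N => P p N ∧ Isolated (μ * Real.log N) (N - p)) N).card : ℝ) + (Q N).card := by
      exact_mod_cast (card_le_card hcov).trans (card_union_le _ _)
    have h9 : c / 2 * (y / L ^ 2) ≤ c / 2 * F N := mul_le_mul_of_nonneg_left hF1 (by positivity)
    linarith
  have hE2c : (E2.card : ℝ) ≤ κ * x / 2 := by
    have h1 : E2 ⊆ Icc 1 ⌊y⌋₊ := by
      intro N hN
      rw [hE2, mem_filter, mem_Icc] at hN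
      rw [mem_Icc]
      exact ⟨hN.1.1, Nat.le_floor hN.2.le⟩
    have h2 := card_le_card h1
    rw [Nat.card_Icc, Nat.add_sub_cancel] at h2
    have h3 : (E2.card : ℝ) ≤ (⌊y⌋₊ : ℝ) := by exact_mod_cast h2
    exact h3.trans (Nat.floor_le hy0.le)
  have hE3c : (E3.card : ℝ) ≤ κ * x / 2 := by
    have h1 : (E3.card : ℝ) * (c / 2 * (y / L ^ 2)) ≤ ∑ N ∈ Icc 1 x, ((Q N).card : ℝ) := by
      rw [← nsmul_eq_mul, ← sum_const]
      refine (sum_le_sum (g := fun N => ((Q N).card : ℝ)) ?_).trans ?_
      · intro N hN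
        rw [hE3, mem_filter] at hN
        exact hN.2
      · apply sum_le_sum_of_subset_of_nonneg
        · rw [hE3]; exact filter_subset _ _
        · intro N _ _
          exact Nat.cast_nonneg _
    have h2 := h1.trans hsum2
    have h3 : (2 * C * μ) * (x ^ 2 / L ^ 2) = (κ * x / 2) * (c / 2 * (y / L ^ 2)) := by
      rw [hμ, hy]
      field_simp
      ring
    rw [h3] at h2
    exact le_of_mul_le_mul_right h2 (by positivity)
  have h1 : ((Ex (fun p N => P p N ∧ Isolated (μ * Real.log N) (N - p)) (c / 2) x).card : ℝ) ≤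
      (Ex P c x).card + (E2.card + E3.card) := by
    have h2 := (card_le_card hsub).trans ((card_union_le _ _).trans
      (Nat.add_le_add_left (card_union_le _ _) _))
    exact_mod_cast h2
  linarith

end Pool.Agent.Y843.LS
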